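import Mathlib

set_option autoImplicit false
open Matrix Finset

namespace Pool.Agent.Results.MP_7ad8d2_an.Low

variable {n : ℕ}

/-- maximum absolute row sum -/
noncomputable def nrm (A : Matrix (Fin n) (Fin n) ℝ) : ℝ := ⨆ i, ∑ j, |A i j|

/-- diagonal dominance of row `i` -/
def Δ (J : Matrix (Fin n) (Fin n) ℝ) (i : Fin n) : ℝ := J i i - ∑ j ∈ univ.erase i, J i j

/-- `S(α, m) = α I + m 1 1^T` -/
def S (n : ℕ) (α m : ℝ) : Matrix (Fin n) (Fin n) ℝ := α • 1 + m • vecMulVec 1 1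

/-- the class `C_n(m, δ)` -/
def Cl (m δ : ℝ) (J : Matrix (Fin n) (Fin n) ℝ) : Prop :=
  J.IsSymm ∧ (∀ i j, 0 < J i j) ∧ (∀ i j, i ≠ j → J i j ≤ m) ∧ ∀ i, 0 ≤ Δ J i ∧ Δ J i ≤ δ

noncomputable def φ (C d r : ℝ) : ℝ :=
  (d * (r + C) + r * (4 * r + 3 * C)) / (d * (r + C) + r * C) / (d + 2 * r)

lemma φ1 {C d δ r : ℝ} (hC : 0 < C) (h0 : 0 ≤ d) (h : d < δ) (hr : 0 < r) : φ C δ r < φ C d r := by
  have : 0 < δ := h0.trans_lt h
  refine div_lt_div₀' ?_ (by linarith) (by positivity) (by positivity) |>.trans_le' le_rfl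
  rw [div_le_div_iff₀ (by positivity) (by positivity)]
  have : 0 ≤ (δ - d) * ((r + C) * r * (4 * r + 2 * C)) := mul_nonneg (by linarith) (by positivity)
  nlinarith

lemma φ2 {C δ r ρ : ℝ} (h0 : 0 ≤ δ) (hC : δ < C) (hr : 0 < r) (h : r < ρ) :
    φ C δ ρ < φ C δ r := by
  have : 0 < C := h0.trans_lt hC
  have : 0 < ρ := hr.trans h
  rw [φ, φ, div_div, div_div, div_lt_div_iff₀ (by positivity) (by positivity)]
  have : 0 < (ρ - r) * (C - δ) * (2 * (δ + 3 * C) * r * ρ + 2 * δ * C * (r + ρ)) :=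
    mul_pos (mul_pos (by linarith) (by linarith)) (by positivity)
  nlinarith

lemma quad {m δ : ℝ} {J : Matrix (Fin n) (Fin n) ℝ} (h : Cl m δ J) (x : Fin n → ℝ) :
    2 * (x ⬝ᵥ J *ᵥ x) =
      ∑ i, (2 * (Δ J i * x i ^ 2) + ∑ j ∈ univ.erase i, J i j * (x i + x j) ^ 2) := by
  have e : ∀ i, 2 * (Δ J i * x i ^ 2) + ∑ j ∈ univ.erase i, J i j * (x i + x j) ^ 2 =
      2 * ∑ j, x i * (J i j * x j) + (∑ j, J i j * x j ^ 2 - ∑ j, J i j * x i ^ 2) := fun i => by
    rw [Δ, sum_erase_eq_sub (mem_univ i), sum_erase_eq_sub (mem_univ i), ← sum_mul,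
      sum_congr rfl fun j _ => show J i j * (x i + x j) ^ 2 =
        J i j * x i ^ 2 + 2 * (x i * (J i j * x j)) + J i j * x j ^ 2 by ring,
      sum_add_distrib, sum_add_distrib, ← sum_mul, ← mul_sum]
    ring
  simp only [e, sum_add_distrib, sum_sub_distrib, ← mul_sum]
  rw [sum_comm (f := fun i j => J i j * x j ^ 2)]
  simp only [fun i j => h.1.apply i j, sub_self, add_zero, dotProduct, mulVec]

lemma qn {m δ : ℝ} {J : Matrix (Fin n) (Fin n) ℝ} (h : Cl m δ J) (x : Fin n → ℝ) (i : Fin n) :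
    0 ≤ 2 * (Δ J i * x i ^ 2) + ∑ j ∈ univ.erase i, J i j * (x i + x j) ^ 2 := by
  have := (h.2.2.2 i).1
  exact add_nonneg (by positivity) (sum_nonneg fun j _ => mul_nonneg (h.2.1 i j).le (sq_nonneg _))

lemma unit {m δ : ℝ} {J : Matrix (Fin n) (Fin n) ℝ} (hn : 3 ≤ n) (h : Cl m δ J) :
    IsUnit J.det := by
  rw [isUnit_iff_ne_zero, Ne, ← exists_mulVec_eq_zero_iff]
  rintro ⟨x, hx, e⟩
  have q := quad h x
  rw [e, dotProduct_zero, mul_zero, eq_comm, sum_eq_zero_iff_of_nonneg fun i _ => qn h x i] at q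
  have z : ∀ i j, i ≠ j → x i + x j = 0 := fun i j hij => by
    have a := (h.2.2.2 i).1
    have b : 0 ≤ 2 * (Δ J i * x i ^ 2) := by positivity
    have c := single_le_sum (f := fun j => J i j * (x i + x j) ^ 2)
      (fun j _ => mul_nonneg (h.2.1 i j).le (sq_nonneg _)) (mem_erase.2 ⟨hij.symm, mem_univ j⟩)
    have d := q i (mem_univ i)
    have := h.2.1 i j
    exact pow_eq_zero_iff two_ne_zero |>.1 (le_antisymm (by nlinarith) (sq_nonneg _))
  refine hx (funext fun i => ?_)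
  obtain ⟨j, hj, k, hk, hjk⟩ := one_lt_card.1 (show 1 < #(univ.erase i) by simp; omega)
  have := z i j (ne_of_mem_erase hj).symm
  have := z i k (ne_of_mem_erase hk).symm
  have := z j k hjk
  simp only [Pi.zero_apply]; linarith

lemma diag {m δ : ℝ} {J : Matrix (Fin n) (Fin n) ℝ} (hn : 3 ≤ n) (h : Cl m δ J) (x : Fin n → ℝ)
    (i : Fin n) : 2 * x i - x ⬝ᵥ J *ᵥ x ≤ J⁻¹ i i := by
  set y := J⁻¹ *ᵥ Pi.single i 1 with hy
  have e : J *ᵥ y = Pi.single i 1 := by rw [hy, mulVec_mulVec, mul_nonsing_inv _ (unit hn h), one_mulVec]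
  have q := (sum_nonneg fun i _ => qn h (x - y) i).trans_eq (quad h (x - y)).symm
  have s : y ⬝ᵥ J *ᵥ x = x i := by
    rw [dotProduct_mulVec, ← mulVec_transpose, h.1.eq, e]; simp
  have t : y i = J⁻¹ i i := by simp [hy]
  rw [mulVec_sub, e, dotProduct_sub, sub_dotProduct, s] at q
  simp only [dotProduct_single, Pi.sub_apply] at q
  linarith

lemma le_nrm (A : Matrix (Fin n) (Fin n) ℝ) (i : Fin n) : 2 * A i i - ∑ j, A i j ≤ nrm A := by
  refine le_trans ?_ (le_ciSup (f := fun i => ∑ j, |A i j|) (Set.finite_range _).bddAbove i)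
  rw [← add_sum_erase _ _ (mem_univ i), ← add_sum_erase _ _ (mem_univ i)]
  have := sum_le_sum fun j (_ : j ∈ univ.erase i) => neg_le_abs (A i j)
  rw [sum_neg_distrib] at this
  linarith [le_abs_self (A i i)]

lemma nrmS (hn : 3 ≤ n) {α m : ℝ} (hα : 0 < α) (hm : 0 < m) :
    nrm (S n α m)⁻¹ = (α + 2 * m * (n - 1)) / (α * (α + m * n)) := by
  have hn' : (3 : ℝ) ≤ n := by exact_mod_cast hn
  have hp : 0 < α + m * n := by positivity
  have hi : (S n α m)⁻¹ = S n α⁻¹ (-(m / (α * (α + m * n)))) := by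
    apply inv_eq_right_inv
    simp only [S, add_mul, mul_add, smul_mul_assoc, mul_smul_comm, one_mul, mul_one,
      vecMulVec_mul_vecMulVec, smul_smul]
    ext i j
    simp [vecMulVec_apply]
    field_simp
    ring
  haveI : Nonempty (Fin n) := ⟨⟨0, by omega⟩⟩
  rw [hi, nrm]
  refine (iSup_congr fun i => ?_).trans ciSup_const
  rw [← add_sum_erase _ _ (mem_univ i), sum_congr rfl fun j hj =>
    show |S n α⁻¹ (-(m / (α * (α + m * n)))) i j| = m / (α * (α + m * n)) by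
      simp [S, vecMulVec_apply, (ne_of_mem_erase hj).symm, abs_of_pos, hm, hα, hp]]
  have e : S n α⁻¹ (-(m / (α * (α + m * n)))) i i = (α + m * (n - 1)) / (α * (α + m * n)) := by
    simp [S, vecMulVec_apply]; field_simp; ring
  rw [e, abs_of_pos (div_pos (by nlinarith) (by positivity)), sum_const, card_erase_of_mem (mem_univ i),
    card_univ, Fintype.card_fin, nsmul_eq_mul, Nat.cast_pred (by omega)]
  ring

theorem result (n : ℕ) (hn : 3 ≤ n) (m δ α : ℝ) (hm : 0 < m) (hδ : 0 ≤ δ)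
    (hα : α = m * (n - 2) + δ) (J : Matrix (Fin n) (Fin n) ℝ) (h : Cl m δ J) :
    nrm (S n α m)⁻¹ = (α + 2 * m * (n - 1)) / (α * (α + m * n)) ∧
      nrm (S n α m)⁻¹ ≤ nrm J⁻¹ ∧ (nrm J⁻¹ = nrm (S n α m)⁻¹ ↔ J = S n α m) := by
  have hn' : (3 : ℝ) ≤ n := by exact_mod_cast hn
  have α0 : 0 < α := by nlinarith
  set C := (n - 1) * (δ + 2 * m * (n - 2)) with hC
  have hδC : δ < C := by nlinarith [mul_pos hm (by linarith : (0 : ℝ) < n - 2)]
  have C0 : 0 < C := hδ.trans_lt hδC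
  have hK : nrm (S n α m)⁻¹ = φ C δ (m * (n - 1)) := by
    have : (0 : ℝ) < n - 1 := by linarith
    have : 0 < α + m * n := by positivity
    rw [nrmS hn α0 hm, φ, div_div, div_eq_div_iff (by positivity) (by positivity), hC, hα]
    ring
  set K := nrm (S n α m)⁻¹
  let r : Fin n → ℝ := fun i => ∑ j ∈ univ.erase i, J i j
  have cd : ∀ i : Fin n, (#(univ.erase i) : ℝ) = n - 1 := fun i => by
    rw [card_erase_of_mem (mem_univ i), card_univ, Fintype.card_fin, Nat.cast_pred (by omega)]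
  have r0 : ∀ i, 0 < r i := fun i =>
    sum_pos (fun j _ => h.2.1 i j) (card_pos.1 (by have := cd i; exact_mod_cast (by linarith : (0 : ℝ) < #(univ.erase i))))
  have rs : ∀ i, ∑ j ∈ univ.erase i, (m - J i j) = m * (n - 1) - r i := fun i => by
    rw [sum_sub_distrib, sum_const, nsmul_eq_mul, cd, mul_comm]
  have nn : ∀ i, ∀ j ∈ univ.erase i, 0 ≤ m - J i j := fun i j hj =>
    sub_nonneg.2 (h.2.2.1 i j (ne_of_mem_erase hj).symm)
  have r1 : ∀ i, r i ≤ m * (n - 1) := fun i => sub_nonneg.1 (rs i ▸ sum_nonneg (nn i))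
  have hp : ∀ i, ∑ j, J i j = Δ J i + 2 * r i := fun i => by
    rw [← add_sum_erase _ _ (mem_univ i), Δ]; ring
  have hd : ∀ i, J i i = Δ J i + r i := fun i => by rw [Δ]; ring
  have hT : ∀ i, ∑ j, ∑ k, J j k ≤ Δ J i + 4 * r i + C := fun i => by
    rw [← add_sum_erase _ _ (mem_univ i), hp]
    have : ∑ j ∈ univ.erase i, ∑ k, J j k ≤
        ∑ j ∈ univ.erase i, (2 * J i j + (δ + 2 * m * (n - 2))) := sum_le_sum fun j hj => by
      have := single_le_sum (nn j) (mem_erase.2 ⟨(ne_of_mem_erase hj).symm, mem_univ i⟩)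
      rw [rs, h.1.apply i j] at this
      rw [hp]; linarith [(h.2.2.2 j).2]
    rw [sum_add_distrib, ← mul_sum, sum_const, nsmul_eq_mul, cd] at this
    linarith
  have G : ∀ i, 1 + (Δ J i + 2 * r i) * φ C (Δ J i) (r i) ≤ (Δ J i + 2 * r i) * (2 * J⁻¹ i i) := by
    intro i
    have d0 := (h.2.2.2 i).1
    have := r0 i
    set D := Δ J i * (r i + C) + r i * C with hD
    have D0 : 0 < D := by positivity
    have q := diag hn h (fun j => (Pi.single i ((2 * r i + C) / D) : Fin n → ℝ) j - r i / D) i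
    have e : (fun j => (Pi.single i ((2 * r i + C) / D) : Fin n → ℝ) j - r i / D) ⬝ᵥ
        J *ᵥ (fun j => (Pi.single i ((2 * r i + C) / D) : Fin n → ℝ) j - r i / D) =
        ((2 * r i + C) / D) ^ 2 * J i i - 2 * ((2 * r i + C) / D) * (r i / D) * ∑ j, J i j +
          (r i / D) ^ 2 * ∑ j, ∑ k, J j k := by
      simp only [dotProduct, mulVec, mul_sub, sub_mul, sum_sub_distrib, Pi.single_apply, mul_ite,
        ite_mul, mul_zero, zero_mul, sum_ite_eq', mem_univ, if_true, ← sum_mul, ← mul_sum,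
        fun j => h.1.apply i j]
      ring
    rw [e, hp, hd] at q
    have t := mul_le_mul_of_nonneg_left (hT i) (sq_nonneg (r i / D))
    have g : (r i + C) / D ≤ J⁻¹ i i := by
      refine le_trans (le_of_eq ?_) (le_trans (sub_le_sub_left (add_le_add_right t _) _) q)
      simp only [Pi.single_eq_same]
      field_simp
      rw [hD]; ring
    refine le_trans (le_of_eq ?_) (mul_le_mul_of_nonneg_left (mul_le_mul_of_nonneg_left g two_pos.le)
      (by positivity))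
    rw [φ, ← hD]
    field_simp
    rw [hD]; ring
  have Z : ∑ i, (Δ J i + 2 * r i) * ∑ j, J⁻¹ i j = n := by
    have : ∀ j, ∑ k, ∑ i, J k i * J⁻¹ i j = 1 := fun j => by
      simp [← mul_apply, mul_nonsing_inv _ (unit hn h), one_apply]
    simp only [← hp, sum_mul, mul_sum]
    rw [sum_comm, sum_congr rfl fun j _ => (sum_comm.trans ?_).trans (this j)]
    · simp
    · simp only [fun i k => h.1.apply i k]
  have p0 : ∀ i, 0 < Δ J i + 2 * r i := fun i => by have := (h.2.2.2 i).1; have := r0 i; positivity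
  have M : ∑ i, (Δ J i + 2 * r i) * φ C (Δ J i) (r i) ≤ ∑ i, (Δ J i + 2 * r i) * nrm J⁻¹ := by
    have a := sum_le_sum fun i (_ : i ∈ univ) => G i
    have b := sum_le_sum fun i (_ : i ∈ univ) => mul_le_mul_of_nonneg_left (le_nrm J⁻¹ i) (p0 i).le
    simp only [mul_sub, sum_sub_distrib, Z] at b
    simp only [sum_add_distrib, sum_const, card_univ, Fintype.card_fin, nsmul_eq_mul] at a
    linarith
  have f1 : ∀ i, φ C δ (r i) ≤ φ C (Δ J i) (r i) := fun i =>
    (h.2.2.2 i).2.eq_or_lt.elim (fun e => by rw [e]) fun e => (φ1 C0 (h.2.2.2 i).1 e (r0 i)).le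
  have f2 : ∀ i, K ≤ φ C δ (r i) := fun i =>
    hK ▸ (r1 i).eq_or_lt.elim (fun e => by rw [e]) fun e => (φ2 hδ hδC (r0 i) e).le
  haveI : Nonempty (Fin n) := ⟨⟨0, by omega⟩⟩
  refine ⟨nrmS hn α0 hm, not_lt.1 fun hl => M.not_gt (sum_lt_sum_of_nonempty univ_nonempty
    fun i _ => mul_lt_mul_of_pos_left (hl.trans_le ((f2 i).trans (f1 i))) (p0 i)),
    fun e => ?_, fun e => by rw [e]⟩
  have E : ∀ i, φ C (Δ J i) (r i) ≤ K := fun i => not_lt.1 fun hl => M.not_gt (sum_lt_sum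
    (fun i _ => mul_le_mul_of_nonneg_left (e ▸ (f2 i).trans (f1 i)) (p0 i).le)
    ⟨i, mem_univ i, mul_lt_mul_of_pos_left (e ▸ hl) (p0 i)⟩)
  have e1 : ∀ i, Δ J i = δ := fun i => (h.2.2.2 i).2.eq_or_lt.resolve_right fun l =>
    (φ1 C0 (h.2.2.2 i).1 l (r0 i)).not_ge ((E i).trans (f2 i))
  have e2 : ∀ i, r i = m * (n - 1) := fun i => (r1 i).eq_or_lt.resolve_right fun l =>
    (φ2 hδ hδC (r0 i) l).not_ge (hK ▸ (f1 i).trans (E i))
  ext i j
  by_cases hij : j = i
  · subst hij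
    rw [hd, e1, e2]; simp [S, vecMulVec_apply, hα]; ring
  · have := (sum_eq_zero_iff_of_nonneg (nn i)).1 (by rw [rs, e2, sub_self]) j
      (mem_erase.2 ⟨hij, mem_univ j⟩)
    simp [S, vecMulVec_apply, Ne.symm hij]; linarith

end Pool.Agent.Results.MP_7ad8d2_an.Low
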